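import Pool.Agent.Lib.MP_7d48f8_nt.B.Box

/-! The bilinear remainder estimate. -/

noncomputable section

namespace Pool.Agent.Lib.MP_7d48f8_nt

open Finset MeasureTheory

theorem bil_dy (N : ℕ) (α f : ℕ → ℝ) : ∑ a ∈ Icc 1 N, α a * f a =
    ∑ i ∈ range (Nat.log 2 N + 1), ∑ a ∈ Ico (2 ^ i) (2 * 2 ^ i),
      (if a ≤ N then α a else 0) * f a := by
  have h : ∀ (g : ℕ → ℝ) (L : ℕ), ∑ i ∈ range L, ∑ a ∈ Ico (2 ^ i) (2 * 2 ^ i), g a =
      ∑ a ∈ Ico 1 (2 ^ L), g a := fun g L => by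
    induction L with
    | zero => simp
    | succ L ih =>
      rw [sum_range_succ, ih, pow_succ', sum_Ico_consecutive _ Nat.one_le_two_pow (by omega)]
  have h1 := Nat.lt_pow_succ_log_self (b := 2) one_lt_two N
  rw [h]
  simp only [ite_mul, zero_mul, ← sum_filter]
  refine sum_congr (ext fun a => ?_) fun _ _ => rfl
  simp only [mem_Icc, mem_filter, mem_Ico]
  exact ⟨fun ha => ⟨⟨ha.1, ha.2.trans_lt h1⟩, ha.2⟩, fun ha => ⟨ha.1.1, ha.2⟩⟩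

theorem bil_le {A : ℝ} (hA : 1 ≤ A) {i : ℕ} (hi : i ∈ range (Nat.log 2 ⌊A⌋₊ + 1)) :
    ((2 ^ i : ℕ) : ℝ) ≤ A :=
  (Nat.cast_le.2 (Nat.pow_le_of_le_log (Nat.floor_pos.2 hA).ne'
    (Nat.lt_succ_iff.1 (mem_range.1 hi)))).trans (Nat.floor_le (zero_le_one.trans hA))

theorem bil_cnt {A x : ℝ} (hA : 1 ≤ A) (hx : A ≤ x) :
    ((Nat.log 2 ⌊A⌋₊ + 1 : ℕ) : ℝ) ≤ 2 * (1 + Real.log x) := by
  have h := Real.log_le_log (by positivity) ((bil_le hA (self_mem_range_succ _)).trans hx)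
  rw [Nat.cast_pow, Real.log_pow, Nat.cast_ofNat] at h
  have h2 := Real.log_two_gt_d9
  have h3 : (0 : ℝ) ≤ Nat.log 2 ⌊A⌋₊ := Nat.cast_nonneg _
  push_cast
  nlinarith

/-- Dyadic decomposition (`a ∈ Ico (2 ^ i) (2 * 2 ^ i)`, `i ≤ Nat.log 2 ⌊A⌋₊`, coefficients cut off
at `A`), `T = x ^ (ε / 11)`, `k` with `k ε / 11 ≥ 2`; `A B ≤ x`. -/
theorem bil {w : ℝ → ℝ} (hw : Bump w) {ε : ℝ} (hε : 0 < ε) : ∃ η C : ℝ, 0 < η ∧ 0 < C ∧
    ∀ (α β : ℕ → ℝ), (∀ a, |α a| ≤ 1) → (∀ b, |β b| ≤ 1) → ∀ (x A B : ℝ), 1 ≤ x → 1 ≤ A → 1 ≤ B →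
      A ≤ x ^ (1 / 2 - ε) → A ^ 3 * B ^ 4 ≤ x ^ (2 - ε) →
      |∑ a ∈ Icc 1 ⌊A⌋₊, ∑ b ∈ Icc 1 ⌊B⌋₊, α a * β b * rr w x (a * b)| ≤ C * x ^ (1 / 2 - η) := by
  obtain ⟨θ, rfl⟩ : ∃ θ, ε = 88 * θ := ⟨ε / 88, by ring⟩
  have hθ : 0 < θ := by linarith
  obtain ⟨C, hC, h⟩ := box hw ⌈1 / θ⌉₊
  refine ⟨θ, 8 * C * (1 + 1 / θ) ^ 3, hθ, by positivity, fun α β hα hβ x A B hx hA hB h1 h2 => ?_⟩
  have hx0 : 0 < x := one_pos.trans_le hx
  have mono : ∀ {s t : ℝ}, s ≤ t → x ^ s ≤ x ^ t := Real.rpow_le_rpow_of_exponent_le hx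
  have hT : 1 ≤ x ^ (8 * θ) := Real.one_le_rpow hx (by positivity)
  have hpow : ∀ n : ℕ, (x ^ (8 * θ)) ^ n = x ^ (8 * θ * n) := fun n =>
    (Real.rpow_mul_natCast hx0.le _ _).symm
  have hx2 : A ^ 3 * B ^ 4 ≤ x ^ 2 := by
    refine h2.trans ?_
    rw [← Real.rpow_two]
    exact mono (by linarith)
  have hAB : (A * B) ^ 2 ≤ x ^ 2 := by
    refine le_trans ?_ hx2
    rw [mul_pow]
    exact mul_le_mul (pow_le_pow_right₀ hA (by norm_num)) (pow_le_pow_right₀ hB (by norm_num))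
      (by positivity) (by positivity)
  have hAB' : A * B ≤ x := (pow_le_pow_iff_left₀ (by positivity) hx0.le two_ne_zero).1 hAB
  have hl := Real.log_nonneg hx
  have hs : √x = x ^ (1 / 2 : ℝ) := Real.sqrt_eq_rpow x
  have hq : √(x ^ (8 * θ)) = x ^ (4 * θ) := by
    rw [Real.sqrt_eq_rpow, ← Real.rpow_mul hx0.le]
    congr 1
    ring
  have hA2 : A * (x ^ (8 * θ)) ^ 2 ≤ √x := by
    refine (mul_le_mul_of_nonneg_right h1 (by positivity)).trans ?_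
    rw [hpow, ← Real.rpow_add hx0, hs]
    exact mono (by push_cast; linarith)
  have hone : 1 ≤ √x / x ^ (4 * θ) := by
    rw [one_le_div (by positivity)]
    refine le_trans ?_ ((le_mul_of_one_le_left (by positivity) hA).trans hA2)
    rw [hpow]
    exact mono (by push_cast; linarith)
  have hbox : ∀ i ∈ range (Nat.log 2 ⌊A⌋₊ + 1), ∀ j ∈ range (Nat.log 2 ⌊B⌋₊ + 1),
      |∑ a ∈ Ico (2 ^ i) (2 * 2 ^ i), ∑ b ∈ Ico (2 ^ j) (2 * 2 ^ j), (if a ≤ ⌊A⌋₊ then α a else 0) *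
        (if b ≤ ⌊B⌋₊ then β b else 0) * rr w x (a * b)| ≤
        2 * C * (1 + Real.log x) * (√x / x ^ (4 * θ)) := by
    intro i hi j hj
    have a1 := bil_le hA hi
    have b1 := bil_le hB hj
    refine (h (fun a => if a ≤ ⌊A⌋₊ then α a else 0) (fun b => if b ≤ ⌊B⌋₊ then β b else 0)
      (fun a => by split_ifs <;> simp [hα]) (fun a => by split_ifs <;> simp [hβ]) _ _ x _
      (Nat.two_pow_pos i) (Nat.two_pow_pos j) hx hT
      ((mul_le_mul_of_nonneg_right a1 (by positivity)).trans hA2) ?_).trans ?_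
    · calc _ ≤ A ^ 3 * B ^ 4 * (x ^ (8 * θ)) ^ 11 := by gcongr
        _ ≤ x ^ (2 - 88 * θ) * (x ^ (8 * θ)) ^ 11 := by gcongr
        _ = x ^ 2 := by
          rw [hpow, ← Real.rpow_add hx0, ← Real.rpow_two]
          congr 1
          push_cast
          ring
    · have e1 : (((2 ^ i : ℕ) : ℝ) * ((2 ^ j : ℕ) : ℝ)) ^ 2 / √x / (x ^ (8 * θ)) ^ ⌈1 / θ⌉₊ ≤ 1 := by
        rw [div_div, div_le_one (by positivity)]
        calc _ ≤ (A * B) ^ 2 := by gcongr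
          _ ≤ x ^ 2 := hAB
          _ ≤ (x ^ (8 * θ)) ^ ⌈1 / θ⌉₊ := by
            rw [hpow, ← Real.rpow_two]
            have := (div_le_iff₀ hθ).1 (Nat.le_ceil (1 / θ))
            exact mono (by linarith)
          _ ≤ _ := le_mul_of_one_le_left (by positivity) (Real.one_le_sqrt.2 hx)
      have e2 : √x * (1 + Real.log x) / √(x ^ (8 * θ)) = (1 + Real.log x) * (√x / x ^ (4 * θ)) := by
        rw [hq]
        ring
      have e3 : 1 ≤ (1 + Real.log x) * (√x / x ^ (4 * θ)) := one_le_mul_of_one_le_of_one_le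
        (by linarith) hone
      rw [e2]
      nlinarith
  have hlog : 1 + Real.log x ≤ (1 + 1 / θ) * x ^ θ := by
    have e1 := Real.log_le_rpow_div hx0.le hθ
    have e2 : 1 ≤ x ^ θ := Real.one_le_rpow hx hθ.le
    rw [add_mul, one_mul, one_div_mul_eq_div]
    linarith
  have e : ∑ a ∈ Icc 1 ⌊A⌋₊, ∑ b ∈ Icc 1 ⌊B⌋₊, α a * β b * rr w x (a * b) =
      ∑ i ∈ range (Nat.log 2 ⌊A⌋₊ + 1), ∑ j ∈ range (Nat.log 2 ⌊B⌋₊ + 1),
        ∑ a ∈ Ico (2 ^ i) (2 * 2 ^ i), ∑ b ∈ Ico (2 ^ j) (2 * 2 ^ j),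
          (if a ≤ ⌊A⌋₊ then α a else 0) * (if b ≤ ⌊B⌋₊ then β b else 0) * rr w x (a * b) := by
    simp only [mul_assoc, ← mul_sum]
    rw [bil_dy]
    refine sum_congr rfl fun i _ => ?_
    rw [sum_comm]
    refine sum_congr rfl fun a _ => ?_
    rw [bil_dy, mul_sum]
  rw [e]
  calc _ ≤ ∑ i ∈ range (Nat.log 2 ⌊A⌋₊ + 1), ∑ j ∈ range (Nat.log 2 ⌊B⌋₊ + 1),
        2 * C * (1 + Real.log x) * (√x / x ^ (4 * θ)) :=
        (abs_sum_le_sum_abs _ _).trans (sum_le_sum fun i hi =>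
          (abs_sum_le_sum_abs _ _).trans (sum_le_sum fun j hj => hbox i hi j hj))
    _ = (Nat.log 2 ⌊A⌋₊ + 1 : ℕ) * ((Nat.log 2 ⌊B⌋₊ + 1 : ℕ) *
        (2 * C * (1 + Real.log x) * (√x / x ^ (4 * θ)))) := by
      rw [sum_const, sum_const, card_range, card_range, nsmul_eq_mul, nsmul_eq_mul]
    _ ≤ 2 * (1 + Real.log x) * (2 * (1 + Real.log x) *
        (2 * C * (1 + Real.log x) * (√x / x ^ (4 * θ)))) := by
      gcongr
      · exact bil_cnt hA ((le_mul_of_one_le_right (by positivity) hB).trans hAB')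
      · exact bil_cnt hB ((le_mul_of_one_le_left (by positivity) hA).trans hAB')
    _ = 8 * C * (1 + Real.log x) ^ 3 * (√x / x ^ (4 * θ)) := by ring
    _ ≤ 8 * C * ((1 + 1 / θ) * x ^ θ) ^ 3 * (√x / x ^ (4 * θ)) := by gcongr
    _ = _ := by
      rw [mul_pow, ← Real.rpow_mul_natCast hx0.le, hs, ← Real.rpow_sub hx0, mul_assoc, mul_assoc,
        mul_assoc, ← Real.rpow_add hx0, mul_assoc, mul_assoc]
      congr 4
      push_cast
      ring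

end Pool.Agent.Lib.MP_7d48f8_nt
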