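import Pool.Agent.Lib.MP_7d48f8_nt.B.Core

/-! The choice of the subdivision parameter. -/

noncomputable section

namespace Pool.Agent.Lib.MP_7d48f8_nt

open Finset MeasureTheory

theorem core2_num {A B H Q y z T : ℝ} (hA : 0 < A) (hB : 0 < B) (hH : 1 ≤ H) (hy : 0 < y)
    (hT : 1 ≤ T) (hz1 : y ^ 2 ≤ z) (hz2 : z ≤ 2 * y ^ 2) (h1 : H ≤ 4 * A * B * T / y)
    (h2 : A * T ^ 2 ≤ y) (h3 : A ^ 3 * B ^ 4 * T ^ 11 ≤ y ^ 4) (hQ1 : B / (T * H) ≤ Q)
    (hQ2 : Q ≤ B / (T * H) + 1) :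
    Q * H * (A + (H * B / Q + H) * √(z * H / (A * B * Q)) +
      (√(H * B / Q) + H) * √(A ^ 3 * B ^ 2 / z)) ≤ 621 * (A * B) / T := by
  have hT0 : 0 < T := by linarith
  have hH0 : 0 < H := by linarith
  have hQ : 0 < Q := lt_of_lt_of_le (by positivity) hQ1
  have hz : 0 < z := lt_of_lt_of_le (by positivity) hz1
  rw [le_div_iff₀ hy] at h1
  rw [div_le_iff₀ (by positivity)] at hQ1
  have a0 : H * T ≤ 4 * B := by
    refine le_of_mul_le_mul_right ?_ hy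
    calc H * T * y = H * y * T := by ring
      _ ≤ 4 * A * B * T * T := by gcongr
      _ = 4 * B * (A * T ^ 2) := by ring
      _ ≤ 4 * B * y := by gcongr
  have a1 : Q * H * T ≤ 5 * B := by
    have h : Q * (T * H) ≤ (B / (T * H) + 1) * (T * H) := by gcongr
    rw [add_mul, div_mul_cancel₀ _ (by positivity)] at h
    linarith
  have a2 : (H * y) ^ 2 ≤ (4 * A * B * T) ^ 2 := by gcongr
  have a3 : H * B / Q ≤ T * H ^ 2 := by
    rw [div_le_iff₀ hQ]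
    calc H * B ≤ H * (Q * (T * H)) := by gcongr
      _ = T * H ^ 2 * Q := by ring
  have hT2 : ∀ k : ℕ, k ≤ 11 → A ^ 3 * B ^ 4 * T ^ k ≤ y ^ 4 := fun k hk =>
    le_trans (by gcongr) h3
  have b2 : √(z * H / (A * B * Q)) ≤ 6 * y ^ 2 / (A * B ^ 2 * T ^ 3) := by
    refine Real.sqrt_le_iff.2 ⟨by positivity, ?_⟩
    have c1 : z * H / (A * B * Q) ≤ 32 * A * T ^ 3 := by
      rw [div_le_iff₀ (by positivity)]
      refine le_of_mul_le_mul_right ?_ hB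
      calc z * H * B ≤ 2 * y ^ 2 * H * (Q * (T * H)) := by gcongr
        _ = 2 * Q * T * (H * y) ^ 2 := by ring
        _ ≤ 2 * Q * T * (4 * A * B * T) ^ 2 := by gcongr
        _ = 32 * A * T ^ 3 * (A * B * Q) * B := by ring
    refine c1.trans ?_
    rw [div_pow, le_div_iff₀ (by positivity)]
    have c2 := hT2 9 (by norm_num)
    have c3 : 0 ≤ y ^ 4 := by positivity
    calc 32 * A * T ^ 3 * (A * B ^ 2 * T ^ 3) ^ 2 = 32 * (A ^ 3 * B ^ 4 * T ^ 9) := by ring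
      _ ≤ (6 * y ^ 2) ^ 2 := by linarith [show (6 * y ^ 2) ^ 2 = 36 * y ^ 4 by ring]
  have b3 : √(H * B / Q) ≤ T * H := by
    refine Real.sqrt_le_iff.2 ⟨by positivity, a3.trans ?_⟩
    rw [mul_pow]
    gcongr
    exact le_self_pow₀ hT two_ne_zero
  have b4 : √(A ^ 3 * B ^ 2 / z) ≤ y / (B * T ^ 2) := by
    refine Real.sqrt_le_iff.2 ⟨by positivity, ?_⟩
    rw [div_pow, div_le_div_iff₀ hz (by positivity)]
    calc A ^ 3 * B ^ 2 * (B * T ^ 2) ^ 2 = A ^ 3 * B ^ 4 * T ^ 4 := by ring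
      _ ≤ y ^ 4 := hT2 4 (by norm_num)
      _ = y ^ 2 * y ^ 2 := by ring
      _ ≤ y ^ 2 * z := by gcongr
  have d1 : Q * H * T * A ≤ 5 * (A * B) := by
    calc Q * H * T * A ≤ 5 * B * A := by gcongr
      _ = 5 * (A * B) := by ring
  have d2 : Q * H * T * ((H * B / Q + H) * √(z * H / (A * B * Q))) ≤ 576 * (A * B) := by
    have c1 : Q * H * T * (H * B / Q + H) ≤ 6 * B * T * H ^ 2 := by
      have c2 : Q * H * T * H ≤ 5 * B * (T * H ^ 2) := by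
        have c3 : H ≤ T * H ^ 2 :=
          (le_self_pow₀ hH two_ne_zero).trans (le_mul_of_one_le_left (by positivity) hT)
        gcongr
      have c4 : Q * H * T * (H * B / Q) = B * (T * H ^ 2) := by field_simp
      rw [mul_add, c4]
      linarith
    calc Q * H * T * ((H * B / Q + H) * √(z * H / (A * B * Q)))
        = Q * H * T * (H * B / Q + H) * √(z * H / (A * B * Q)) := by ring
      _ ≤ 6 * B * T * H ^ 2 * (6 * y ^ 2 / (A * B ^ 2 * T ^ 3)) := by gcongr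
      _ = 36 * (H * y) ^ 2 / (A * B * T ^ 2) := by field_simp; norm_num
      _ ≤ 36 * (4 * A * B * T) ^ 2 / (A * B * T ^ 2) := by gcongr
      _ = 576 * (A * B) := by field_simp; norm_num
  have d3 : Q * H * T * ((√(H * B / Q) + H) * √(A ^ 3 * B ^ 2 / z)) ≤ 40 * (A * B) := by
    have c1 : H ≤ T * H := le_mul_of_one_le_left hH0.le hT
    calc Q * H * T * ((√(H * B / Q) + H) * √(A ^ 3 * B ^ 2 / z))
        ≤ 5 * B * ((T * H + T * H) * (y / (B * T ^ 2))) := by gcongr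
      _ = 10 * (H * y) / T := by field_simp; norm_num
      _ ≤ 10 * (4 * A * B * T) / T := by gcongr
      _ = 40 * (A * B) := by field_simp; norm_num
  rw [le_div_iff₀ hT0]
  linarith

/-- Choice of `Q = ⌈B / (T H)⌉₊`.  With `y ^ 2 ≤ z ≤ 2 y ^ 2`, `H ≤ 4 A B T / y`:
`Q H / B ≤ 1 / T + 4 A T / y`, `H B / Q ≤ T H ^ 2`, `z H / (A B Q) ≤ 32 A T ^ 3`, `Q H ≤ 5 B`. -/
theorem core2 : ∃ C : ℝ, 0 < C ∧ ∀ (α β : ℕ → ℝ), (∀ a, |α a| ≤ 1) → (∀ b, |β b| ≤ 1) →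
    ∀ (A B H : ℕ) (y z T : ℝ), 0 < A → 0 < B → 0 < y → 1 ≤ T → y ^ 2 ≤ z → z ≤ 2 * y ^ 2 →
      (H : ℝ) ≤ 4 * A * B * T / y → A * T ^ 2 ≤ y → (A : ℝ) ^ 3 * B ^ 4 * T ^ 11 ≤ y ^ 4 →
      ‖SS α β A B H z‖ ^ 2 ≤ C * (A * B) ^ 2 * (1 + Real.log H) ^ 2 / T := by
  obtain ⟨C, hC, h⟩ := core
  refine ⟨621 * C, by positivity, fun α β hα hβ A B H y z T hA hB hy hT hz1 hz2 h1 h2 h3 => ?_⟩
  have hT0 : 0 < T := by linarith
  rcases Nat.eq_zero_or_pos H with rfl | hH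
  · have h0 : SS α β A B 0 z = 0 := by simp [SS]
    rw [h0, norm_zero, zero_pow two_ne_zero]
    positivity
  have hA' : (0 : ℝ) < A := by exact_mod_cast hA
  have hB' : (0 : ℝ) < B := by exact_mod_cast hB
  have hH' : (1 : ℝ) ≤ H := by exact_mod_cast hH
  have h4 : (0 : ℝ) < B / (T * H) := by positivity
  have h5 := core2_num hA' hB' hH' hy hT hz1 hz2 h1 h2 h3 (Nat.le_ceil _)
    (Nat.ceil_lt_add_one h4.le).le
  refine (h α β hα hβ A B H _ z hA hB hH (Nat.ceil_pos.2 h4)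
    (lt_of_lt_of_le (by positivity) hz1)).trans ?_
  have h6 := mul_le_mul_of_nonneg_left h5
    (show 0 ≤ C * (A * B) * (1 + Real.log H) ^ 2 by positivity)
  refine le_trans (le_of_eq (by ring)) (h6.trans_eq (by ring))

end Pool.Agent.Lib.MP_7d48f8_nt
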