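import Pool.Agent.Lib.MP_7d48f8_nt.B.Tru
import Pool.Agent.Lib.MP_7d48f8_nt.B.Core2

/-! One dyadic box. -/

noncomputable section

namespace Pool.Agent.Lib.MP_7d48f8_nt

open Finset MeasureTheory

theorem box_cs {w : ℝ → ℝ} (hw : Bump w) : HasCompactSupport w :=
  HasCompactSupport.intro (isCompact_Icc (a := (0 : ℝ)) (b := 1)) (fun t ht => by
    by_contra h
    exact ht ⟨(hw.supp t h).1.le, (hw.supp t h).2.le⟩)

theorem box_int {w : ℝ → ℝ} (hw : Bump w) {f : ℝ → ℝ} (hf : Continuous f) :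
    Integrable (fun t => w t * f t) :=
  (hw.smooth.continuous.mul hf).integrable_of_hasCompactSupport (box_cs hw).mul_right

/-- The normalised coefficients. -/
def box_n (α : ℕ → ℝ) (A : ℕ) (a : ℕ) : ℝ := if A ≤ a then α a * (A / a) else 0

theorem box_n_le {α : ℕ → ℝ} (hα : ∀ a, |α a| ≤ 1) (A a : ℕ) : |box_n α A a| ≤ 1 := by
  unfold box_n
  split_ifs with h
  · have h1 : (A : ℝ) / a ≤ 1 := div_le_one_of_le₀ (by exact_mod_cast h) (by positivity)
    have h0 : (0 : ℝ) ≤ A / a := by positivity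
    rw [abs_mul, abs_of_nonneg h0]
    exact mul_le_one₀ (hα a) h0 h1
  · simp

theorem box_re (α β : ℕ → ℝ) (A B H : ℕ) (z : ℝ) : (SS α β A B H z).re =
    ∑ a ∈ Ico A (2 * A), ∑ b ∈ Ico B (2 * B), ∑ h ∈ Icc 1 H,
      α a * β b * Real.cos (2 * Real.pi * (h * z / (a * b))) := by
  unfold SS
  rw [Complex.re_sum]
  refine sum_congr rfl fun a _ => ?_
  rw [sum_comm, Complex.re_sum]
  refine sum_congr rfl fun b _ => ?_
  rw [Complex.re_sum]
  refine sum_congr rfl fun h _ => ?_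
  rw [Complex.re_ofReal_mul, ee_re]

theorem box_main {w : ℝ → ℝ} (hw : Bump w) (α β : ℕ → ℝ) (A B H : ℕ) (x y K : ℝ)
    (hA : 0 < A) (hB : 0 < B) (hy : 0 ≤ y)
    (hK : ∀ t : ℝ, 0 < t → t < 1 → ‖SS (box_n α A) (box_n β B) A B H (x + t * y)‖ ≤ K) :
    |∑ a ∈ Ico A (2 * A), ∑ b ∈ Ico B (2 * B), α a * β b * (y / ((a * b : ℕ) : ℝ) *
      ∑ h ∈ Icc 1 H, ∫ t, w t * (2 * Real.cos (2 * Real.pi *
        ((h : ℝ) * (x + t * y) / ((a * b : ℕ) : ℝ)))))| ≤
      y / (A * B) * (2 * K) * ∫ t, w t := by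
  have hA' : (0 : ℝ) < A := by exact_mod_cast hA
  have hB' : (0 : ℝ) < B := by exact_mod_cast hB
  have hI : ∀ (a b h : ℕ) (c : ℝ), Integrable (fun t : ℝ => w t * (c * (2 * Real.cos
      (2 * Real.pi * ((h : ℝ) * (x + t * y) / ((a * b : ℕ) : ℝ)))))) := fun a b h c =>
    box_int hw (by fun_prop)
  have e1 : ∑ a ∈ Ico A (2 * A), ∑ b ∈ Ico B (2 * B), α a * β b * (y / ((a * b : ℕ) : ℝ) *
      ∑ h ∈ Icc 1 H, ∫ t, w t * (2 * Real.cos (2 * Real.pi *
        ((h : ℝ) * (x + t * y) / ((a * b : ℕ) : ℝ))))) =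
      ∫ t, ∑ a ∈ Ico A (2 * A), ∑ b ∈ Ico B (2 * B), ∑ h ∈ Icc 1 H,
        w t * ((α a * β b * (y / ((a * b : ℕ) : ℝ))) * (2 * Real.cos
          (2 * Real.pi * ((h : ℝ) * (x + t * y) / ((a * b : ℕ) : ℝ))))) := by
    rw [integral_finsetSum _ fun a _ => integrable_finsetSum _ fun b _ =>
      integrable_finsetSum _ fun h _ => hI a b h _]
    refine sum_congr rfl fun a _ => ?_
    rw [integral_finsetSum _ fun b _ => integrable_finsetSum _ fun h _ => hI a b h _]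
    refine sum_congr rfl fun b _ => ?_
    rw [integral_finsetSum _ fun h _ => hI a b h _, ← mul_assoc, mul_sum]
    refine sum_congr rfl fun h _ => ?_
    rw [← integral_const_mul]
    congr 1
    funext t
    ring
  have e2 : ∀ t : ℝ, ∑ a ∈ Ico A (2 * A), ∑ b ∈ Ico B (2 * B), ∑ h ∈ Icc 1 H,
        w t * ((α a * β b * (y / ((a * b : ℕ) : ℝ))) * (2 * Real.cos
          (2 * Real.pi * ((h : ℝ) * (x + t * y) / ((a * b : ℕ) : ℝ))))) =
      w t * (y / (A * B) * (2 * (SS (box_n α A) (box_n β B) A B H (x + t * y)).re)) := by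
    intro t
    rw [box_re]
    simp only [mul_sum]
    refine sum_congr rfl fun a ha => sum_congr rfl fun b hb => sum_congr rfl fun h _ => ?_
    have ha1 : A ≤ a := (mem_Ico.1 ha).1
    have hb1 : B ≤ b := (mem_Ico.1 hb).1
    have ha2 : (0 : ℝ) < a := by exact_mod_cast hA.trans_le ha1
    have hb2 : (0 : ℝ) < b := by exact_mod_cast hB.trans_le hb1
    rw [box_n, box_n, if_pos ha1, if_pos hb1]
    push_cast
    field_simp
  rw [e1]
  simp only [e2]
  rw [← integral_const_mul, ← Real.norm_eq_abs]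
  refine norm_integral_le_of_norm_le
    ((hw.smooth.continuous.integrable_of_hasCompactSupport (box_cs hw)).const_mul _)
    (Filter.Eventually.of_forall fun t => ?_)
  by_cases h0 : w t = 0
  · simp [h0]
  · have h1 := hK t (hw.supp t h0).1 (hw.supp t h0).2
    have h2 := (Complex.abs_re_le_norm _).trans h1
    have h3 : (0 : ℝ) ≤ y / (A * B) := by positivity
    rw [Real.norm_eq_abs, abs_mul, abs_mul, abs_mul, abs_of_nonneg (hw.nonneg t),
      abs_of_nonneg h3, abs_two, mul_comm]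
    have h4 := hw.nonneg t
    gcongr

theorem box_log {A B x T : ℝ} {H : ℕ} (hA : 0 < A) (hB : 0 < B) (hx : 1 ≤ x) (hT : 1 ≤ T)
    (h1 : A * T ^ 2 ≤ √x) (h2 : A ^ 3 * B ^ 4 * T ^ 11 ≤ x ^ 2)
    (hH : (H : ℝ) ≤ 4 * A * B * T / √x) : 1 + Real.log H ≤ 4 * (1 + Real.log x) := by
  have hy : 1 ≤ √x := Real.one_le_sqrt.2 hx
  have hyx : √x ≤ x := by
    have := Real.mul_self_sqrt (show 0 ≤ x by linarith)
    nlinarith
  have hlx : 0 ≤ Real.log x := Real.log_nonneg hx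
  have hA1 : A ≤ x := by
    have : A * 1 ≤ A * T ^ 2 := by gcongr; exact one_le_pow₀ hT
    linarith
  have h3 : (A * B * T) ^ 4 ≤ x ^ 4 := by
    have h4 : T ^ 4 ≤ T ^ 11 := pow_le_pow_right₀ hT (by norm_num)
    calc (A * B * T) ^ 4 = A * (A ^ 3 * B ^ 4 * T ^ 4) := by ring
      _ ≤ A * (A ^ 3 * B ^ 4 * T ^ 11) := by gcongr
      _ ≤ x * x ^ 2 := by gcongr
      _ = x ^ 3 := by ring
      _ ≤ x ^ 4 := pow_le_pow_right₀ hx (by norm_num)
  have h5 : A * B * T ≤ x := le_of_pow_le_pow_left₀ (by norm_num) (by linarith) h3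
  have h6 : (H : ℝ) ≤ 4 * x := by
    have : 4 * A * B * T / √x ≤ 4 * A * B * T := div_le_self (by positivity) hy
    linarith
  rcases Nat.eq_zero_or_pos H with h0 | h0
  · subst h0
    simp only [Nat.cast_zero, Real.log_zero]
    linarith
  · have h7 : Real.log H ≤ Real.log (4 * x) := Real.log_le_log (by exact_mod_cast h0) h6
    rw [Real.log_mul (by norm_num) (by linarith)] at h7
    have h8 : Real.log 4 ≤ 4 - 1 := Real.log_le_sub_one_of_pos (by norm_num)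
    linarith

/-- One dyadic box.  `H = ⌊4 A B T / √x⌋₊`; `Bump.trunc` (there `d < 4 A B`, so
`d / (√x (H + 1)) ≤ 1 / T`); the main part is
`√x / (A B) * ∫ t, w t * 2 * re (SS α' β' A B H (x + t √x))` with `α' a = α a * A / a`,
`β' b = β b * B / b`; `w t = 0` unless `0 < t < 1`, and then `x ≤ x + t √x ≤ 2 x`. -/
theorem box {w : ℝ → ℝ} (hw : Bump w) (k : ℕ) : ∃ C : ℝ, 0 < C ∧ ∀ (α β : ℕ → ℝ),
    (∀ a, |α a| ≤ 1) → (∀ b, |β b| ≤ 1) → ∀ (A B : ℕ) (x T : ℝ), 0 < A → 0 < B → 1 ≤ x → 1 ≤ T →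
      A * T ^ 2 ≤ √x → (A : ℝ) ^ 3 * B ^ 4 * T ^ 11 ≤ x ^ 2 →
      |∑ a ∈ Ico A (2 * A), ∑ b ∈ Ico B (2 * B), α a * β b * rr w x (a * b)| ≤
        C * (√x * (1 + Real.log x) / √T + (A * B) ^ 2 / √x / T ^ k) := by
  obtain ⟨C1, hC1, h1⟩ := hw.trunc k
  obtain ⟨C2, hC2, h2⟩ := core2
  have hW := hw.pos
  refine ⟨8 * √C2 * (∫ t, w t) + 4 * C1, by positivity, ?_⟩
  intro α β hα hβ A B x T hA hB hx hT hAT hABT
  have hA' : (0 : ℝ) < A := by exact_mod_cast hA
  have hB' : (0 : ℝ) < B := by exact_mod_cast hB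
  have hy : 1 ≤ √x := Real.one_le_sqrt.2 hx
  have hyy : √x ^ 2 = x := Real.sq_sqrt (by linarith)
  have hyx : √x ≤ x := by nlinarith
  have hlx : 0 ≤ Real.log x := Real.log_nonneg hx
  have hT0 : 0 < T := by linarith
  have hsT : 0 < √T := Real.sqrt_pos.2 hT0
  set H : ℕ := ⌊4 * A * B * T / √x⌋₊ with hHdef
  have hH : (H : ℝ) ≤ 4 * A * B * T / √x := Nat.floor_le (by positivity)
  have hH' : 4 * A * B * T ≤ √x * (H + 1) := by
    have := (Nat.lt_floor_add_one (4 * A * B * T / √x)).le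
    rw [div_le_iff₀ (by linarith)] at this
    linarith
  have hlog := box_log hA' hB' hx hT hAT hABT hH
  have hlH : 0 ≤ Real.log H := Real.log_natCast_nonneg H
  have hK : ∀ t : ℝ, 0 < t → t < 1 → ‖SS (box_n α A) (box_n β B) A B H (x + t * √x)‖ ≤
      √C2 * (A * B) * (4 * (1 + Real.log x)) / √T := by
    intro t ht0 ht1
    have h3 := h2 (box_n α A) (box_n β B) (box_n_le hα A) (box_n_le hβ B) A B H (√x)
      (x + t * √x) T hA hB (by linarith) hT (by rw [hyy]; nlinarith) (by rw [hyy]; nlinarith)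
      hH hAT (by rw [show √x ^ 4 = (√x ^ 2) ^ 2 by ring, hyy]; exact hABT)
    refine le_of_pow_le_pow_left₀ two_ne_zero (by positivity) (h3.trans ?_)
    rw [div_pow, mul_pow (√C2 * _), mul_pow (√C2), Real.sq_sqrt hC2.le, Real.sq_sqrt hT0.le]
    gcongr
  have hM := box_main hw α β A B H x (√x) _ hA hB (by linarith) hK
  have hE : |∑ a ∈ Ico A (2 * A), ∑ b ∈ Ico B (2 * B), α a * β b * (rr w x (a * b) -
      √x / ((a * b : ℕ) : ℝ) * ∑ h ∈ Icc 1 H, ∫ t, w t * (2 * Real.cos (2 * Real.pi *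
        ((h : ℝ) * (x + t * √x) / ((a * b : ℕ) : ℝ)))))| ≤
      4 * C1 * ((A * B) ^ 2 / √x / T ^ k) := by
    have h3 : ∀ a ∈ Ico A (2 * A), ∀ b ∈ Ico B (2 * B), |α a * β b * (rr w x (a * b) -
        √x / ((a * b : ℕ) : ℝ) * ∑ h ∈ Icc 1 H, ∫ t, w t * (2 * Real.cos (2 * Real.pi *
          ((h : ℝ) * (x + t * √x) / ((a * b : ℕ) : ℝ)))))| ≤
        C1 * (4 * A * B / √x) * (1 / T) ^ k := by
      intro a ha b hb
      obtain ⟨ha1, ha2⟩ := mem_Ico.1 ha
      obtain ⟨hb1, hb2⟩ := mem_Ico.1 hb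
      have hd : ((a * b : ℕ) : ℝ) ≤ 4 * A * B := by
        have ha3 : (a : ℝ) ≤ 2 * A := by exact_mod_cast ha2.le
        have hb3 : (b : ℝ) ≤ 2 * B := by exact_mod_cast hb2.le
        push_cast
        calc (a : ℝ) * b ≤ (2 * A) * (2 * B) := by gcongr
          _ = 4 * A * B := by ring
      have h4 := h1 x hx (a * b) (Nat.mul_pos (hA.trans_le ha1) (hB.trans_le hb1)) H
      have h5 : ((a * b : ℕ) : ℝ) / (√x * (H + 1)) ≤ 1 / T := by
        rw [div_le_div_iff₀ (by positivity) hT0]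
        nlinarith
      have h6 : |α a * β b| ≤ 1 := by
        rw [abs_mul]
        exact mul_le_one₀ (hα a) (abs_nonneg _) (hβ b)
      rw [abs_mul]
      refine (mul_le_of_le_one_left (abs_nonneg _) h6).trans (h4.trans ?_)
      gcongr
    refine (abs_sum_le_sum_abs _ _).trans ?_
    refine (sum_le_sum fun a ha => (abs_sum_le_sum_abs _ _).trans
      (sum_le_sum fun b hb => h3 a ha b hb)).trans (le_of_eq ?_)
    simp only [sum_const, Nat.card_Ico, nsmul_eq_mul, show 2 * A - A = A by omega,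
      show 2 * B - B = B by omega]
    rw [one_div, inv_pow]
    field_simp
  have hsplit : ∑ a ∈ Ico A (2 * A), ∑ b ∈ Ico B (2 * B), α a * β b * rr w x (a * b) =
      ∑ a ∈ Ico A (2 * A), ∑ b ∈ Ico B (2 * B), α a * β b * (√x / ((a * b : ℕ) : ℝ) *
        ∑ h ∈ Icc 1 H, ∫ t, w t * (2 * Real.cos (2 * Real.pi *
          ((h : ℝ) * (x + t * √x) / ((a * b : ℕ) : ℝ))))) +
      ∑ a ∈ Ico A (2 * A), ∑ b ∈ Ico B (2 * B), α a * β b * (rr w x (a * b) -
        √x / ((a * b : ℕ) : ℝ) * ∑ h ∈ Icc 1 H, ∫ t, w t * (2 * Real.cos (2 * Real.pi *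
          ((h : ℝ) * (x + t * √x) / ((a * b : ℕ) : ℝ))))) := by
    rw [← sum_add_distrib]
    refine sum_congr rfl fun a _ => ?_
    rw [← sum_add_distrib]
    refine sum_congr rfl fun b _ => ?_
    ring
  rw [hsplit]
  refine (abs_add_le _ _).trans ((add_le_add hM hE).trans ?_)
  have e : √x / (A * B) * (2 * (√C2 * (A * B) * (4 * (1 + Real.log x)) / √T)) * ∫ t, w t =
      8 * √C2 * (∫ t, w t) * (√x * (1 + Real.log x) / √T) := by
    field_simp
    ring
  rw [e]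
  have p1 : 0 ≤ √x * (1 + Real.log x) / √T := by positivity
  have p2 : (0 : ℝ) ≤ (A * B) ^ 2 / √x / T ^ k := by positivity
  have p3 : 0 ≤ 8 * √C2 * ∫ t, w t := by positivity
  nlinarith [mul_nonneg p3 p2, mul_nonneg hC1 p1]

end Pool.Agent.Lib.MP_7d48f8_nt
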