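import Pool.Agent.Lib.MP_7d48f8_nt.B.Defs

/-! Cauchy's inequality with subdivision. -/

noncomputable section

namespace Pool.Agent.Lib.MP_7d48f8_nt

open Finset MeasureTheory

theorem cau_sq {α : Type} (P : Finset α) (C : Finset ℕ) (cl : α → ℕ) (h : ∀ p ∈ P, cl p ∈ C)
    (f : α → ℂ) : ∑ c ∈ C, ((‖∑ p ∈ P.filter (cl · = c), f p‖ : ℂ)) ^ 2 =
      ∑ q ∈ (P ×ˢ P).filter (fun q => cl q.1 = cl q.2), f q.1 * (starRingEnd ℂ) (f q.2) := by
  rw [← sum_fiberwise_of_maps_to (g := fun q : α × α => cl q.1) (t := C)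
    fun q hq => h _ (mem_product.1 (mem_filter.1 hq).1).1]
  refine sum_congr rfl fun c _ => ?_
  rw [← Complex.mul_conj', map_sum, sum_mul_sum, ← sum_product']
  refine sum_congr (Finset.ext fun q => ?_) fun _ _ => rfl
  simp only [mem_filter, mem_product]
  exact ⟨fun ⟨a, b⟩ => ⟨⟨⟨a.1, b.1⟩, a.2.trans b.2.symm⟩, a.2⟩,
    fun ⟨a, b⟩ => ⟨⟨a.1.1, b⟩, a.1.2, a.2.symm.trans b⟩⟩

theorem cau_near {B H Q h h' b b' : ℝ} (hB : 0 < B) (hH : 0 < H) (hQ : 0 < Q) (h0 : 0 ≤ h)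
    (h0' : 0 ≤ h') (h1 : B ≤ b) (h1' : B ≤ b') (h2 : b ≤ 2 * B) (h2' : b' ≤ 2 * B)
    (e : ⌊h * (B * Q) / (b * H)⌋₊ = ⌊h' * (B * Q) / (b' * H)⌋₊) :
    |h * b' - h' * b| ≤ 4 * H * B / Q := by
  have hb := hB.trans_le h1
  have hb' := hB.trans_le h1'
  have a1 := Nat.floor_le (show 0 ≤ h * (B * Q) / (b * H) by positivity)
  have a2 := Nat.floor_le (show 0 ≤ h' * (B * Q) / (b' * H) by positivity)
  have a3 := Nat.lt_floor_add_one (h * (B * Q) / (b * H))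
  have a4 := Nat.lt_floor_add_one (h' * (B * Q) / (b' * H))
  rw [e] at a1 a3
  have a5 : h * b' - h' * b =
      (h * (B * Q) / (b * H) - h' * (B * Q) / (b' * H)) * (b * b' * H / (B * Q)) := by field_simp
  rw [a5, abs_mul, abs_of_pos (show 0 < b * b' * H / (B * Q) by positivity)]
  refine (mul_le_of_le_one_left (by positivity) (abs_le.2 ⟨by linarith, by linarith⟩)).trans ?_
  calc b * b' * H / (B * Q) ≤ 2 * B * (2 * B) * H / (B * Q) := by gcongr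
    _ = _ := by field_simp; norm_num

/-- Put the pair `(h, b)` in the class `c = ⌊(h / b) / (H / (B Q))⌋₊ ∈ range (Q + 1)`.  Cauchy's
inequality over the pairs `(a, c)`, expand the square, exchange the sums.  Two pairs in one class have
`|h / b - h' / b'| ≤ H / (B Q)`, so `|h b' - h' b| ≤ 4 H B / Q`. -/
theorem cau {α β : ℕ → ℝ} (hα : ∀ a, |α a| ≤ 1) (hβ : ∀ b, |β b| ≤ 1) {A B H Q : ℕ} (hB : 0 < B)
    (hH : 0 < H) (hQ : 0 < Q) (z : ℝ) :
    ‖SS α β A B H z‖ ^ 2 ≤ A * (Q + 1) *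
      ∑ q ∈ (Qd H B).filter (fun q => |dt q| ≤ 4 * H * B / Q),
        ‖∑ a ∈ Ico A (2 * A), ee (z * dt q / (q.1.2 * q.2.2) / a)‖ := by
  have hB' : (0 : ℝ) < B := Nat.cast_pos.2 hB
  have hH' : (0 : ℝ) < H := Nat.cast_pos.2 hH
  have hQ' : (0 : ℝ) < Q := Nat.cast_pos.2 hQ
  set P := Icc 1 H ×ˢ Ico B (2 * B)
  have hP : ∀ p ∈ P, (p.1 : ℝ) ≤ H ∧ (B : ℝ) ≤ p.2 ∧ (p.2 : ℝ) ≤ 2 * B := fun p hp => by
    obtain ⟨h1, h2⟩ := mem_product.1 hp
    exact_mod_cast And.intro (mem_Icc.1 h1).2 ((mem_Ico.1 h2).imp_right le_of_lt)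
  let cl : ℕ × ℕ → ℕ := fun p => ⌊(p.1 : ℝ) * (B * Q) / (p.2 * H)⌋₊
  have hcl : ∀ p ∈ P, cl p ∈ range (Q + 1) := fun p hp => by
    obtain ⟨h1, h2, -⟩ := hP p hp
    refine mem_range_succ_iff.2 (Nat.floor_le_of_le ?_)
    calc (p.1 : ℝ) * (B * Q) / (p.2 * H) ≤ H * (B * Q) / (B * H) := by gcongr
      _ = _ := by field_simp
  let f : ℕ → ℕ × ℕ → ℂ := fun a p => β p.2 * ee (p.1 * z / (a * p.2))
  let T : ℕ × ℕ → ℝ := fun x => ‖∑ p ∈ P.filter (cl · = x.2), f x.1 p‖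
  have h1 : ‖SS α β A B H z‖ ≤ ∑ x ∈ Ico A (2 * A) ×ˢ range (Q + 1), T x := by
    rw [sum_product]
    refine norm_sum_le_of_le _ fun a _ => ?_
    have e : ∑ h ∈ Icc 1 H, ∑ b ∈ Ico B (2 * B), ((α a * β b : ℝ) : ℂ) * ee (h * z / (a * b)) =
        α a * ∑ c ∈ range (Q + 1), ∑ p ∈ P.filter (cl · = c), f a p := by
      rw [sum_fiberwise_of_maps_to hcl, mul_sum, sum_product]
      simp only [f, Complex.ofReal_mul, mul_assoc]
    rw [e, norm_mul, Complex.norm_real]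
    exact (mul_le_of_le_one_left (norm_nonneg _) (hα a)).trans (norm_sum_le _ _)
  have h2 : ((∑ x ∈ Ico A (2 * A) ×ˢ range (Q + 1), T x ^ 2 : ℝ) : ℂ) =
      ∑ q ∈ (Qd H B).filter (fun q => cl q.1 = cl q.2), ((β q.1.2 * β q.2.2 : ℝ) : ℂ) *
        ∑ a ∈ Ico A (2 * A), ee (z * dt q / (q.1.2 * q.2.2) / a) := by
    push_cast
    simp only [sum_product, T, cau_sq P _ cl hcl, mul_sum]
    rw [sum_comm]
    refine sum_congr rfl fun q hq => sum_congr rfl fun a ha => ?_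
    obtain ⟨a1, a2⟩ := mem_product.1 (mem_filter.1 hq).1
    have a3 := hB'.trans_le (hP _ a1).2.1
    have a4 := hB'.trans_le (hP _ a2).2.1
    have a5 : (0 : ℝ) < a := Nat.cast_pos.2 (by have := mem_Ico.1 ha; omega)
    simp only [f]
    rw [map_mul, Complex.conj_ofReal, conj_ee, mul_mul_mul_comm, ← ee_add, dt]
    congr 2
    field_simp
    ring
  refine (pow_le_pow_left₀ (norm_nonneg _) h1 2).trans (sq_sum_le_card_mul_sum_sq.trans ?_)
  rw [card_product, Nat.card_Ico, card_range, show 2 * A - A = A by omega]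
  push_cast
  refine mul_le_mul_of_nonneg_left ((le_abs_self _).trans ?_) (by positivity)
  rw [← Real.norm_eq_abs, ← Complex.norm_real, h2]
  refine (norm_sum_le_of_le _ fun q _ => ?_).trans
    (sum_le_sum_of_subset_of_nonneg (fun q hq => ?_) fun _ _ _ => norm_nonneg _)
  · rw [norm_mul, Complex.norm_real, Real.norm_eq_abs, abs_mul]
    exact mul_le_of_le_one_left (norm_nonneg _) (mul_le_one₀ (hβ _) (abs_nonneg _) (hβ _))
  obtain ⟨a0, e⟩ := mem_filter.1 hq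
  obtain ⟨a1, a2⟩ := mem_product.1 a0
  exact mem_filter.2 ⟨a0, cau_near hB' hH' hQ' (Nat.cast_nonneg _) (Nat.cast_nonneg _)
    (hP _ a1).2.1 (hP _ a2).2.1 (hP _ a1).2.2 (hP _ a2).2.2 e⟩

end Pool.Agent.Lib.MP_7d48f8_nt
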