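import Pool.Agent.Lib.MP_7d48f8_nt.B.Defs

/-! Counting quadruples with zero determinant. -/

noncomputable section

namespace Pool.Agent.Lib.MP_7d48f8_nt

open Finset MeasureTheory

/-- For fixed `h, h', b'` there is at most one `b`.  Better: for fixed `h, h'` with `g = gcd h h'`
the number `b` is a multiple of `h / g` and determines `b'`, so at most `2 B g / h` choices;
`∑ h, h' ≤ H, g / h ≤ ∑ g ≤ H, ∑ u ≤ H, ∑ u' ≤ H / g, 1 / u ≤ H (1 + log H) ^ 2`
(`harmonic_le_one_add_log`). -/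
theorem cnt0 (H B : ℕ) : (((Qd H B).filter fun q => dt q = 0).card : ℝ) ≤
    2 * B * H * (1 + Real.log H) ^ 2 := by
  have h1 : ((Qd H B).filter fun q => dt q = 0).card ≤ ((Icc 1 H ×ˢ Icc 1 H).sigma
      fun p => Icc 1 (H / p.1) ×ˢ Icc 1 (2 * B / p.2)).card := by
    refine card_le_card_of_surjOn (fun z => ((z.1.1 * z.1.2, z.1.2 * z.2.2),
      (z.1.1 * z.2.1, z.2.1 * z.2.2))) ?_
    rintro ⟨⟨h, b⟩, h', b'⟩ hq
    simp only [Qd, dt, coe_filter, mem_product, mem_Icc, mem_Ico, Set.mem_ofPred_eq,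
      sub_eq_zero] at hq
    obtain ⟨⟨⟨⟨h1, h2⟩, h3, h4⟩, ⟨h5, h6⟩, -⟩, h7⟩ := hq
    have h8 : h * b' = h' * b := by exact_mod_cast h7
    obtain ⟨g, u, ⟨u', rfl⟩, ⟨v, rfl⟩, rfl⟩ := exists_dvd_and_dvd_of_dvd_mul (Dvd.intro _ h8)
    have hg : 0 < g := Nat.pos_of_mul_pos_right h1
    have hu : 0 < u := Nat.pos_of_mul_pos_left h1
    obtain rfl : b' = u' * v := Nat.eq_of_mul_eq_mul_left h1 (by rw [h8]; ring)
    refine ⟨⟨(g, u), (u', v)⟩, ?_, rfl⟩
    simp only [coe_sigma, Set.mem_sigma_iff, mem_coe, mem_product, mem_Icc]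
    exact ⟨⟨⟨hg, (Nat.le_mul_of_pos_right _ hu).trans h2⟩, hu,
      (Nat.le_mul_of_pos_left _ hg).trans h2⟩, ⟨Nat.pos_of_mul_pos_left h5,
      (Nat.le_div_iff_mul_le hg).2 (by rwa [mul_comm])⟩,
      Nat.pos_of_mul_pos_left (a := u) (by omega),
      (Nat.le_div_iff_mul_le hu).2 (by rw [mul_comm]; exact h4.le)⟩
  have h2 : ∑ i ∈ Icc 1 H, (i : ℝ)⁻¹ ≤ 1 + Real.log H := by
    simpa only [harmonic_eq_sum_Icc, Rat.cast_sum, Rat.cast_inv, Rat.cast_natCast] using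
      harmonic_le_one_add_log H
  refine (Nat.cast_le.2 h1).trans (le_trans ?_ (mul_le_mul_of_nonneg_left
    (pow_le_pow_left₀ (by positivity) h2 2) (by positivity)))
  rw [card_sigma, Nat.cast_sum, sq, sum_mul_sum, ← sum_product', mul_sum]
  refine sum_le_sum fun p _ => ?_
  rw [card_product, Nat.card_Icc, Nat.card_Icc, Nat.add_sub_cancel, Nat.add_sub_cancel,
    Nat.cast_mul]
  refine (mul_le_mul Nat.cast_div_le Nat.cast_div_le (by positivity) (by positivity)).trans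
    (le_of_eq ?_)
  push_cast
  ring

end Pool.Agent.Lib.MP_7d48f8_nt
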