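import Pool.Agent.Lib.MP_7d48f8_nt.B.Defs

/-! Counting quadruples with small determinant. -/

noncomputable section

namespace Pool.Agent.Lib.MP_7d48f8_nt

open Finset MeasureTheory

theorem cntb_gap (T : Finset ℕ) (d : ℕ → ℝ) {k lo : ℝ} (φ F : ℝ → ℝ)
    (hg : ∀ a b, a ≠ b → k ≤ |d a - d b|) (hF : Monotone F) (h0 : ∀ x, lo ≤ x → 0 ≤ F x)
    (h1 : ∀ x, lo ≤ x → φ x ≤ 1) (h2 : ∀ x, lo ≤ x - k → φ x + F (x - k) ≤ F x) :
    ∀ hi, 0 ≤ F hi → (∀ b ∈ T, lo ≤ d b ∧ d b ≤ hi) → ∑ b ∈ T, φ (d b) ≤ 1 + F hi := by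
  induction T using Finset.induction_on_max_value d with
  | empty =>
    intro hi h _
    rw [sum_empty]
    linarith
  | insert a s ha hs ih =>
    intro hi h hT
    obtain ⟨a1, a2⟩ := hT a (mem_insert_self _ _)
    rw [sum_insert ha]
    rcases s.eq_empty_or_nonempty with rfl | ⟨b, hb⟩
    · rw [sum_empty]
      linarith [h1 _ a1]
    · have h3 : ∀ x ∈ s, lo ≤ d x ∧ d x ≤ d a - k := fun x hx => by
        have e := hg a x fun e => ha (e ▸ hx)
        rw [abs_of_nonneg (sub_nonneg.2 (hs x hx))] at e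
        exact ⟨(hT x (mem_insert_of_mem hx)).1, by linarith⟩
      have h4 : lo ≤ d a - k := (h3 b hb).1.trans (h3 b hb).2
      linarith [ih _ (h0 _ h4) h3, h2 _ h4, hF a2]

theorem cntb_abs {k : ℝ} (hk : 0 ≤ k) {a b : ℕ} (h : a ≠ b) : k ≤ |k * b - k * a| := by
  have h1 : (1 : ℤ) ≤ |(b : ℤ) - a| := Int.one_le_abs (sub_ne_zero.2 (by exact_mod_cast h.symm))
  have h2 : (1 : ℝ) ≤ |(b : ℝ) - a| := by exact_mod_cast h1
  rw [← mul_sub, abs_mul, abs_of_nonneg hk]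
  exact le_mul_of_one_le_right hk h2

theorem cntb_red (H B : ℕ) (P : (ℕ × ℕ) × (ℕ × ℕ) → Prop) [DecidablePred P]
    (f : (ℕ × ℕ) × (ℕ × ℕ) → ℝ) {a c : ℝ} (ha : 0 ≤ a)
    (h : ∀ h h' b' : ℕ, 1 ≤ h' → ∑ b ∈ (Ico B (2 * B)).filter (fun b => P ((h, b), (h', b'))),
      f ((h, b), (h', b')) ≤ c + a / h') :
    ∑ q ∈ (Qd H B).filter P, f q ≤ H * B * (a * (1 + Real.log H) + c * H) := by
  have h1 : ∑ i ∈ Icc 1 H, (i : ℝ)⁻¹ ≤ 1 + Real.log H := by
    have e := harmonic_le_one_add_log H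
    rw [harmonic_eq_sum_Icc] at e
    push_cast at e
    exact e
  have hB : ((Ico B (2 * B)).card : ℝ) = B := by
    rw [Nat.card_Ico, two_mul, Nat.add_sub_cancel]
  have hH : ((Icc 1 H).card : ℝ) = H := by rw [Nat.card_Icc, Nat.add_sub_cancel]
  rw [sum_filter, Qd, sum_product, sum_product]
  have h2 : ∀ u ∈ Icc 1 H, (∑ b ∈ Ico B (2 * B), ∑ y ∈ Icc 1 H ×ˢ Ico B (2 * B),
      if P ((u, b), y) then f ((u, b), y) else 0) ≤ B * (a * (1 + Real.log H) + c * H) := by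
    intro u _
    rw [sum_comm, sum_product]
    calc _ ≤ ∑ v ∈ Icc 1 H, ∑ _b ∈ Ico B (2 * B), (c + a / v) :=
          sum_le_sum fun v hv => sum_le_sum fun b' _ => by
            rw [← sum_filter]
            exact h u v b' (mem_Icc.1 hv).1
      _ = B * (a * ∑ i ∈ Icc 1 H, (i : ℝ)⁻¹ + c * H) := by
          simp only [sum_const, nsmul_eq_mul, hB, hH, ← mul_sum, sum_add_distrib, div_eq_mul_inv]
          ring
      _ ≤ _ := by gcongr
  refine (sum_le_card_nsmul _ _ _ h2).trans_eq ?_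
  rw [nsmul_eq_mul, hH, mul_assoc]

theorem cntb_sqrt (T : Finset ℕ) (d : ℕ → ℝ) {k Δ : ℝ} (hk : 0 < k)
    (hg : ∀ a b, a ≠ b → k ≤ |d a - d b|) (hT : ∀ b ∈ T, 1 ≤ d b ∧ d b ≤ Δ) :
    ∑ b ∈ T, 1 / √(d b) ≤ 1 + 2 * √Δ / k := by
  refine cntb_gap T d (fun x => 1 / √x) (fun x => 2 * √x / k) hg (fun x y h => ?_)
    (fun x _ => by positivity) (fun x hx => ?_) (fun x hx => ?_) Δ (by positivity) hT
  · dsimp only
    gcongr
  · exact div_le_one_of_le₀ (Real.one_le_sqrt.2 hx) (Real.sqrt_nonneg x)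
  · have h1 : 0 < √x := Real.sqrt_pos.2 (by linarith)
    have h2 := Real.sq_sqrt (show 0 ≤ x by linarith)
    have h3 := Real.sq_sqrt (show 0 ≤ x - k by linarith)
    rw [← le_sub_iff_add_le, ← sub_div, div_le_div_iff₀ h1 hk]
    nlinarith [sq_nonneg (√x - √(x - k))]

theorem cntb_two (T : Finset ℕ) (d : ℕ → ℝ) {k Δ : ℝ} (hk : 0 < k)
    (hg : ∀ a b, a ≠ b → k ≤ |d a - d b|) (hT : ∀ b ∈ T, 1 ≤ |d b| ∧ |d b| ≤ Δ) :
    ∑ b ∈ T, 1 / √|d b| ≤ 2 + 4 * √Δ / k := by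
  have h1 := cntb_sqrt (T.filter fun b => 0 ≤ d b) d (Δ := Δ) hk hg fun b hb => by
    rw [← abs_of_nonneg (mem_filter.1 hb).2]
    exact hT b (mem_filter.1 hb).1
  have h2 := cntb_sqrt (T.filter fun b => ¬ 0 ≤ d b) (fun b => -d b) (Δ := Δ) hk
    (fun a b hab => by rw [neg_sub_neg]; exact hg b a hab.symm) fun b hb => by
      rw [← abs_of_neg (not_le.1 (mem_filter.1 hb).2)]
      exact hT b (mem_filter.1 hb).1
  rw [← sum_filter_add_sum_filter_not T fun b => 0 ≤ d b,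
    sum_congr rfl fun b hb => by rw [abs_of_nonneg (mem_filter.1 hb).2],
    sum_congr (s₁ := T.filter fun b => ¬ 0 ≤ d b) rfl fun b hb => by
      rw [abs_of_neg (not_le.1 (mem_filter.1 hb).2)]]
  refine (add_le_add h1 h2).trans_eq ?_
  ring

/-- For fixed `h, h', b'` the `b` with `|h b' - h' b| ≤ Δ` lie in an interval of length `2 Δ / h'`,
so there are at most `2 Δ / h' + 1` of them. -/
theorem cnt1 (H B : ℕ) {Δ : ℝ} (hΔ : 0 ≤ Δ) :
    (((Qd H B).filter fun q => |dt q| ≤ Δ).card : ℝ) ≤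
      H * B * (2 * Δ * (1 + Real.log H) + H) := by
  have h := cntb_red H B (fun q => |dt q| ≤ Δ) (fun _ => 1) (a := 2 * Δ) (c := 1) (by positivity)
    fun h h' b' h1 => by
      have hk : (0 : ℝ) < h' := by exact_mod_cast h1
      refine (cntb_gap _ (fun b => dt ((h, b), (h', b'))) (k := h') (lo := -Δ) (fun _ => 1)
        (fun x => (x + Δ) / h') (fun a b hab => ?_) (fun x y hxy => ?_) (fun x hx => ?_)
        (fun _ _ => le_rfl) (fun x _ => le_of_eq ?_) Δ (by positivity)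
        fun b hb => abs_le.1 (mem_filter.1 hb).2).trans_eq (by ring)
      · simpa only [dt, sub_sub_sub_cancel_left] using cntb_abs hk.le hab
      · dsimp only
        gcongr
      · exact div_nonneg (by linarith) hk.le
      · field_simp
        ring
  rwa [sum_const, nsmul_eq_mul, mul_one, one_mul] at h

/-- For fixed `h, h', b'` the values `h b' - h' b` are integers in an arithmetic progression of
difference `h'`; the positive ones that are at most `Δ` contribute at most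
`1 + ∑ 1 ≤ j ≤ Δ / h', (j h') ^ (-1 / 2) ≤ 1 + 2 √Δ / h'`, and the same for the negative ones. -/
theorem cnt2 (H B : ℕ) {Δ : ℝ} (hΔ : 0 ≤ Δ) :
    ∑ q ∈ (Qd H B).filter (fun q => dt q ≠ 0 ∧ |dt q| ≤ Δ), 1 / √|dt q| ≤
      H * B * (4 * √Δ * (1 + Real.log H) + 2 * H) := by
  refine cntb_red H B (fun q => dt q ≠ 0 ∧ |dt q| ≤ Δ) (fun q => 1 / √|dt q|) (a := 4 * √Δ)
    (c := 2) (by positivity) fun h h' b' h1 => ?_
  have _ := hΔ
  have hk : (0 : ℝ) < h' := by exact_mod_cast h1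
  refine cntb_two _ (fun b => dt ((h, b), (h', b'))) hk (fun a b hab => ?_) fun b hb => ?_
  · simpa only [dt, sub_sub_sub_cancel_left] using cntb_abs hk.le hab
  · obtain ⟨h2, h3⟩ := (mem_filter.1 hb).2
    have e : dt ((h, b), (h', b')) = (((h : ℤ) * b' - h' * b : ℤ) : ℝ) := by
      simp [dt]
    refine ⟨?_, h3⟩
    rw [e] at h2 ⊢
    exact_mod_cast Int.one_le_abs (by exact_mod_cast h2)

end Pool.Agent.Lib.MP_7d48f8_nt
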