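import Pool.Agent.Lib.MP_7d48f8_nt.B.Defs
import Pool.Agent.Lib.MP_7d48f8_nt.Vd

/-! The second derivative test for the phase γ / a. -/

noncomputable section

namespace Pool.Agent.Lib.MP_7d48f8_nt

open Finset MeasureTheory

/-- `vdc` with `φ t = 2 π γ / t`, `φ'' t = 4 π γ / t ^ 3`, `lam = π |γ| / (2 A ^ 3)`, `h = 8`. -/
theorem vda : ∃ C : ℝ, 0 < C ∧ ∀ (A : ℕ) (γ : ℝ), 0 < A → γ ≠ 0 →
    ‖∑ a ∈ Ico A (2 * A), ee (γ / a)‖ ≤ C * (√(|γ| / A) + √((A : ℝ) ^ 3 / |γ|)) := by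
  obtain ⟨C, hC, H⟩ := vdc
  refine ⟨16 * C, by positivity, fun A γ hA hγ => ?_⟩
  have hA' : (0 : ℝ) < A := by exact_mod_cast hA
  have hg : 0 < |γ| := abs_pos.2 hγ
  have hπ := Real.pi_pos
  have key : ∀ t ∈ Set.Icc (A : ℝ) (2 * A : ℕ), Real.pi * |γ| / (2 * A ^ 3) ≤
      4 * Real.pi * |γ| / t ^ 3 ∧ 4 * Real.pi * |γ| / t ^ 3 ≤ 8 * (Real.pi * |γ| / (2 * A ^ 3)) := by
    intro t ⟨h1, h2⟩
    push_cast at h2
    have ht : 0 < t := hA'.trans_le h1
    constructor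
    · rw [show Real.pi * |γ| / (2 * A ^ 3) = 4 * Real.pi * |γ| / (2 * A) ^ 3 by field_simp; ring]
      gcongr
    · rw [show 8 * (Real.pi * |γ| / (2 * A ^ 3)) = 4 * Real.pi * |γ| / A ^ 3 by field_simp; ring]
      gcongr
  have h := H (fun t => 2 * Real.pi * (γ / t)) (fun t => -(2 * Real.pi * γ) / t ^ 2)
    (fun t => 4 * Real.pi * γ / t ^ 3) A (2 * A) (Real.pi * |γ| / (2 * A ^ 3)) 8 (by omega)
    (by positivity) (by norm_num) (fun t ht => ?_) (fun t ht => ?_) ?_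
  · refine h.trans ?_
    have h1 : (A : ℝ) * √(Real.pi * |γ| / (2 * A ^ 3)) ≤ 2 * √(|γ| / A) := by
      refine abs_le_of_sq_le_sq' ?_ (by positivity) |>.2
      rw [mul_pow, mul_pow, Real.sq_sqrt (by positivity), Real.sq_sqrt (by positivity),
        show (A : ℝ) ^ 2 * (Real.pi * |γ| / (2 * A ^ 3)) = Real.pi / 2 * (|γ| / A) by field_simp]
      gcongr
      linarith [Real.pi_le_four]
    have h2 : 1 / √(Real.pi * |γ| / (2 * A ^ 3)) ≤ √((A : ℝ) ^ 3 / |γ|) := by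
      rw [one_div, ← Real.sqrt_inv, inv_div,
        show 2 * (A : ℝ) ^ 3 / (Real.pi * |γ|) = 2 / Real.pi * (A ^ 3 / |γ|) by field_simp]
      refine Real.sqrt_le_sqrt (mul_le_of_le_one_left (by positivity) ?_)
      exact (div_le_one hπ).2 Real.two_le_pi
    have h3 := Real.sqrt_nonneg ((A : ℝ) ^ 3 / |γ|)
    rw [mul_comm 16, mul_assoc C]
    refine mul_le_mul_of_nonneg_left ?_ hC.le
    push_cast
    rw [show (2 : ℝ) * A - A = A by ring]
    linarith
  · have ht0 : t ≠ 0 := (hA'.trans_le ht.1).ne'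
    refine (((hasDerivAt_inv ht0).const_mul γ).const_mul (2 * Real.pi)).congr_deriv ?_
    field_simp
  · have ht0 : t ≠ 0 := (hA'.trans_le ht.1).ne'
    refine ((hasDerivAt_const t (-(2 * Real.pi * γ))).div (hasDerivAt_pow 2 t)
      (pow_ne_zero 2 ht0)).congr_deriv ?_
    field_simp
    push_cast
    ring
  · rcases le_total 0 γ with h | h
    · left
      intro t ht
      simpa only [abs_of_nonneg h] using key t ht
    · right
      intro t ht
      simpa only [abs_of_nonpos h, mul_neg, neg_div] using key t ht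

end Pool.Agent.Lib.MP_7d48f8_nt
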