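import Pool.Agent.Lib.MP_7d48f8_nt.B.CntA
import Pool.Agent.Lib.MP_7d48f8_nt.B.CntB
import Pool.Agent.Lib.MP_7d48f8_nt.B.Vda
import Pool.Agent.Lib.MP_7d48f8_nt.B.Cau

/-! The estimate for the trilinear sum. -/

noncomputable section

namespace Pool.Agent.Lib.MP_7d48f8_nt

open Finset MeasureTheory

theorem core_triv (A : ℕ) (γ : ℝ) : ‖∑ a ∈ Ico A (2 * A), ee (γ / a)‖ ≤ A := by
  refine (norm_sum_le _ _).trans ?_
  simp only [norm_ee, sum_const, Nat.card_Ico, nsmul_eq_mul, mul_one]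
  exact_mod_cast (by omega : 2 * A - A ≤ A)

theorem core_term {A B H Q d b b' z : ℝ} (hA : 0 < A) (hB : 0 < B) (hQ : 0 < Q) (hz : 0 < z)
    (hd : d ≠ 0) (hd' : |d| ≤ 4 * H * B / Q) (h1 : B ≤ b) (h2 : b ≤ 2 * B) (h3 : B ≤ b')
    (h4 : b' ≤ 2 * B) :
    √(|z * d / (b * b')| / A) + √(A ^ 3 / |z * d / (b * b')|) ≤
      2 * √(z * H / (A * B * Q)) + 2 * √(A ^ 3 * B ^ 2 / z) * (1 / √|d|) := by
  have hb : 0 < b := hB.trans_le h1
  have hb' : 0 < b' := hB.trans_le h3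
  have hd0 : 0 < |d| := abs_pos.2 hd
  have hd1 : 0 ≤ z * (4 * H * B / Q) := mul_nonneg hz.le (hd0.le.trans hd')
  have e : |z * d / (b * b')| = z * |d| / (b * b') := by
    rw [abs_div, abs_mul, abs_of_pos hz, abs_of_pos (mul_pos hb hb')]
  have s4 : ∀ x : ℝ, √(4 * x) = 2 * √x := fun x => by
    rw [Real.sqrt_mul (by norm_num), show (4 : ℝ) = 2 ^ 2 by norm_num, Real.sqrt_sq zero_le_two]
  rw [e]
  refine add_le_add ?_ ?_
  · rw [← s4]
    refine Real.sqrt_le_sqrt ?_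
    calc z * |d| / (b * b') / A ≤ z * (4 * H * B / Q) / (B * B) / A := by gcongr
      _ = 4 * (z * H / (A * B * Q)) := by field_simp
  · rw [mul_assoc, mul_one_div, ← Real.sqrt_div (by positivity), ← s4]
    refine Real.sqrt_le_sqrt ?_
    calc A ^ 3 / (z * |d| / (b * b')) ≤ A ^ 3 / (z * |d| / (2 * B * (2 * B))) := by gcongr
      _ = 4 * (A ^ 3 * B ^ 2 / z / |d|) := by field_simp; norm_num

/-- `cau`; the quadruples with `dt q = 0` give `A` each (`cnt0`); for the others use `vda` with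
`γ = z dt q / (b b')`, `|γ| ≤ 4 z H / (B Q)`, `|γ| ≥ z |dt q| / (4 B ^ 2)`, then `cnt1`, `cnt2`. -/
theorem core : ∃ C : ℝ, 0 < C ∧ ∀ (α β : ℕ → ℝ), (∀ a, |α a| ≤ 1) → (∀ b, |β b| ≤ 1) →
    ∀ (A B H Q : ℕ) (z : ℝ), 0 < A → 0 < B → 0 < H → 0 < Q → 0 < z →
      ‖SS α β A B H z‖ ^ 2 ≤ C * (A * Q * (H * B)) * (1 + Real.log H) ^ 2 *
        (A + (H * B / Q + H) * √(z * H / (A * B * Q)) +
          (√(H * B / Q) + H) * √((A : ℝ) ^ 3 * B ^ 2 / z)) := by
  obtain ⟨C, hC, hv⟩ := vda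
  refine ⟨4 + 32 * C, by positivity, fun α β hα hβ A B H Q z hA hB hH hQ hz => ?_⟩
  have hA' : (0 : ℝ) < A := Nat.cast_pos.2 hA
  have hB' : (0 : ℝ) < B := Nat.cast_pos.2 hB
  have hH' : (1 : ℝ) ≤ H := Nat.one_le_cast.2 hH
  have hQ' : (1 : ℝ) ≤ Q := Nat.one_le_cast.2 hQ
  have hL : 1 ≤ 1 + Real.log H := le_add_of_nonneg_right (Real.log_nonneg hH')
  have hΔ : (0 : ℝ) ≤ 4 * H * B / Q := by positivity
  have c0 := cnt0 H B
  have c1 := cnt1 H B hΔ
  have c2 := cnt2 H B hΔ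
  have e1 : √(4 * H * B / Q : ℝ) = 2 * √(H * B / Q : ℝ) := by
    rw [show (4 * H * B / Q : ℝ) = 2 ^ 2 * (H * B / Q) by ring, Real.sqrt_mul (by norm_num),
      Real.sqrt_sq zero_le_two]
  rw [e1] at c2
  set u := √(z * H / (A * B * Q))
  set v := √((A : ℝ) ^ 3 * B ^ 2 / z)
  have hu : 0 ≤ u := Real.sqrt_nonneg _
  have hv0 : 0 ≤ v := Real.sqrt_nonneg _
  have key : ∑ q ∈ (Qd H B).filter (fun q => |dt q| ≤ 4 * H * B / Q),
      ‖∑ a ∈ Ico A (2 * A), ee (z * dt q / (q.1.2 * q.2.2) / a)‖ ≤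
      (((Qd H B).filter fun q => dt q = 0).card : ℝ) * A +
        (((Qd H B).filter fun q => |dt q| ≤ 4 * H * B / Q).card : ℝ) * (C * (2 * u)) +
        C * (2 * v) * ∑ q ∈ (Qd H B).filter (fun q => dt q ≠ 0 ∧ |dt q| ≤ 4 * H * B / Q),
          1 / √|dt q| := by
    rw [← nsmul_eq_mul, ← nsmul_eq_mul, ← sum_const, ← sum_const, mul_sum, sum_filter, sum_filter,
      sum_filter, sum_filter, ← sum_add_distrib, ← sum_add_distrib]
    refine sum_le_sum fun q hq => ?_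
    by_cases h1 : |dt q| ≤ 4 * H * B / Q
    · by_cases h2 : dt q = 0
      · rw [if_pos h1, if_pos h2, if_pos h1, if_neg fun h => h.1 h2, add_zero]
        exact (core_triv A _).trans (le_add_of_nonneg_right (by positivity))
      · rw [if_pos h1, if_neg h2, if_pos h1, if_pos ⟨h2, h1⟩, zero_add]
        simp only [Qd, mem_product, mem_Ico] at hq
        have b1 : (B : ℝ) ≤ q.1.2 := Nat.cast_le.2 hq.1.2.1
        have b2 : (B : ℝ) ≤ q.2.2 := Nat.cast_le.2 hq.2.2.1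
        have b3 : (q.1.2 : ℝ) ≤ 2 * B := by exact_mod_cast hq.1.2.2.le
        have b4 : (q.2.2 : ℝ) ≤ 2 * B := by exact_mod_cast hq.2.2.2.le
        refine (hv A _ hA (div_ne_zero (mul_ne_zero hz.ne' h2)
          (mul_pos (hB'.trans_le b1) (hB'.trans_le b2)).ne')).trans ?_
        rw [mul_assoc C, ← mul_add]
        exact mul_le_mul_of_nonneg_left
          (core_term hA' hB' (one_pos.trans_le hQ') hz h2 h1 b1 b3 b2 b4) hC.le
    · rw [if_neg h1, if_neg h1, if_neg fun h : _ ∧ _ => h1 h.2, add_zero, add_zero]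
      split_ifs
      exacts [hA'.le, le_rfl]
  rw [show (4 * H * B / Q : ℝ) = 4 * (H * B / Q) by ring] at c1
  have hX : (0 : ℝ) ≤ H * B / Q := by positivity
  have hY : (0 : ℝ) ≤ √(H * B / Q) := Real.sqrt_nonneg _
  have hL2 : 1 + Real.log H ≤ (1 + Real.log H) ^ 2 := le_self_pow₀ hL two_ne_zero
  have d1 : 2 * (4 * (H * B / Q)) * (1 + Real.log H) + H ≤
      8 * (1 + Real.log H) ^ 2 * (H * B / Q + H) := by
    nlinarith [mul_le_mul_of_nonneg_left hL2 hX,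
      mul_le_mul_of_nonneg_left (hL.trans hL2) (zero_le_one.trans hH')]
  have d2 : 4 * (2 * √(H * B / Q)) * (1 + Real.log H) + 2 * H ≤
      8 * (1 + Real.log H) ^ 2 * (√(H * B / Q) + H) := by
    nlinarith [mul_le_mul_of_nonneg_left hL2 hY,
      mul_le_mul_of_nonneg_left (hL.trans hL2) (zero_le_one.trans hH')]
  have hHB : (0 : ℝ) ≤ H * B := by positivity
  have c1' := c1.trans (mul_le_mul_of_nonneg_left d1 hHB)
  have c2' := c2.trans (mul_le_mul_of_nonneg_left d2 hHB)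
  rw [show (4 * (H * B / Q) : ℝ) = 4 * H * B / Q by ring] at c1'
  have k2 := key.trans (add_le_add (add_le_add (mul_le_mul_of_nonneg_right c0 hA'.le)
    (mul_le_mul_of_nonneg_right c1' (by positivity))) (mul_le_mul_of_nonneg_left c2' (by positivity)))
  refine (cau hα hβ hB hH hQ z).trans ((mul_le_mul (mul_le_mul_of_nonneg_left
    (by linarith : (Q : ℝ) + 1 ≤ 2 * Q) hA'.le) k2 (sum_nonneg fun _ _ => norm_nonneg _)
      (by positivity)).trans ?_)
  have hP : (0 : ℝ) ≤ A * Q * (H * B) * (1 + Real.log H) ^ 2 := by positivity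
  have h5 : 0 ≤ 32 * C * A + 4 * ((H * B / Q + H) * u) + 4 * ((√(H * B / Q) + H) * v) := by
    positivity
  refine le_of_sub_nonneg (le_of_le_of_eq (mul_nonneg hP h5) ?_)
  ring

end Pool.Agent.Lib.MP_7d48f8_nt
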