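import Pool.Agent.Lib.MP_7d48f8_nt.B.Defs

/-! The weight and the decay of its Fourier transform. -/

noncomputable section

namespace Pool.Agent.Lib.MP_7d48f8_nt

open Finset MeasureTheory

/-- `ContDiffBump` centred at `1 / 2` with radii `1 / 8 < 1 / 4`. -/
theorem exists_bump : ∃ w, Bump w := by
  let f : ContDiffBump (1 / 2 : ℝ) := ⟨1 / 8, 1 / 4, by norm_num, by norm_num⟩
  refine ⟨f, f.contDiff, fun t ht => ?_, fun _ => f.nonneg, fun _ => f.le_one, f.integral_pos⟩
  have h : t ∈ Metric.ball (1 / 2 : ℝ) (1 / 4) := f.support_eq ▸ ht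
  rw [Metric.mem_ball, Real.dist_eq, abs_lt] at h
  constructor <;> linarith [h.1, h.2]

/-- Decay of the Fourier transform: `w` is a Schwartz function (`HasCompactSupport.toSchwartzMap`,
`SchwartzMap.decay` for its Fourier transform), or integrate by parts. -/
theorem Bump.decay {w : ℝ → ℝ} (hw : Bump w) (k : ℕ) :
    ∃ C : ℝ, 0 ≤ C ∧ ∀ ξ : ℝ, |ξ| ^ k * ‖∫ t, (w t : ℂ) * ee (-(ξ * t))‖ ≤ C := by
  have h1 : HasCompactSupport fun t => (w t : ℂ) :=
    HasCompactSupport.intro (isCompact_Icc (a := (0 : ℝ)) (b := 1)) fun t ht => by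
      by_contra h
      have h2 := hw.supp t fun e => h (by rw [e, Complex.ofReal_zero])
      exact ht ⟨h2.1.le, h2.2.le⟩
  obtain ⟨C, h0, hC⟩ := (FourierTransform.fourier
    (h1.toSchwartzMap (Complex.ofRealCLM.contDiff.comp hw.smooth))).decay k 0
  refine ⟨C, h0.le, fun ξ => le_of_eq_of_le ?_ (hC ξ)⟩
  rw [norm_iteratedFDeriv_zero, SchwartzMap.fourier_coe, Real.fourier_real_eq_integral_exp_smul,
    Real.norm_eq_abs]
  congr 2
  refine integral_congr_ae (Filter.Eventually.of_forall fun t => ?_)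
  change (w t : ℂ) * ee (-(ξ * t)) = _ * (w t : ℂ)
  rw [ee, mul_comm, mul_comm Complex.I]
  congr 4
  ring

end Pool.Agent.Lib.MP_7d48f8_nt
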