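import Mathlib

/-! Vocabulary for the bilinear remainder estimate in the interval `(x, x + √x]`. -/

noncomputable section

namespace Pool.Agent.Lib.MP_7d48f8_nt

open Finset MeasureTheory
open scoped ContDiff

/-- `e(t) = exp (2 π i t)`. -/
def ee (t : ℝ) : ℂ := Complex.exp (Complex.I * ((2 * Real.pi * t : ℝ) : ℂ))

/-- A smooth weight supported in `(0, 1)`. -/
structure Bump (w : ℝ → ℝ) : Prop where
  smooth : ContDiff ℝ ∞ w
  supp : ∀ t, w t ≠ 0 → 0 < t ∧ t < 1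
  nonneg : ∀ t, 0 ≤ w t
  le_one : ∀ t, w t ≤ 1
  pos : 0 < ∫ t, w t

/-- The integers of the short interval `(x, x + √x]`. -/
def II (x : ℝ) : Finset ℕ := Ioc ⌊x⌋₊ ⌊x + √x⌋₊

/-- The weighted number of multiples of `d` in the short interval. -/
def NN (w : ℝ → ℝ) (x : ℝ) (d : ℕ) : ℝ :=
  ∑ n ∈ (II x).filter (fun n => d ∣ n), w ((n - x) / √x)

/-- The remainder term. -/
def rr (w : ℝ → ℝ) (x : ℝ) (d : ℕ) : ℝ := NN w x d - √x * (∫ t, w t) / d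

/-- The quadruples `((h, b), (h', b'))` with `1 ≤ h, h' ≤ H` and `B ≤ b, b' < 2 B`. -/
def Qd (H B : ℕ) : Finset ((ℕ × ℕ) × (ℕ × ℕ)) :=
  (Icc 1 H ×ˢ Ico B (2 * B)) ×ˢ (Icc 1 H ×ˢ Ico B (2 * B))

/-- The determinant `h b' - h' b`. -/
def dt (q : (ℕ × ℕ) × (ℕ × ℕ)) : ℝ := (q.1.1 : ℝ) * q.2.2 - (q.2.1 : ℝ) * q.1.2

/-- The trilinear exponential sum. -/
def SS (α β : ℕ → ℝ) (A B H : ℕ) (z : ℝ) : ℂ :=
  ∑ a ∈ Ico A (2 * A), ∑ h ∈ Icc 1 H, ∑ b ∈ Ico B (2 * B),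
    ((α a * β b : ℝ) : ℂ) * ee (h * z / (a * b))

theorem norm_ee (t : ℝ) : ‖ee t‖ = 1 := by
  rw [ee, Complex.norm_exp_I_mul_ofReal]

theorem ee_add (s t : ℝ) : ee (s + t) = ee s * ee t := by
  rw [ee, ee, ee, ← Complex.exp_add]
  congr 1
  push_cast
  ring

theorem ee_zero : ee 0 = 1 := by simp [ee]

theorem conj_ee (t : ℝ) : (starRingEnd ℂ) (ee t) = ee (-t) := by
  rw [ee, ee, ← Complex.exp_conj]
  congr 1
  rw [map_mul, Complex.conj_I, Complex.conj_ofReal]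
  push_cast
  ring

theorem ee_re (t : ℝ) : (ee t).re = Real.cos (2 * Real.pi * t) := by
  rw [ee, mul_comm, Complex.exp_ofReal_mul_I_re]

end Pool.Agent.Lib.MP_7d48f8_nt
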