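import Pool.Agent.Lib.MP_7d48f8_nt.B.Dec

/-! Poisson summation for the multiples of d. -/

noncomputable section

namespace Pool.Agent.Lib.MP_7d48f8_nt

open Finset MeasureTheory

theorem poi_hcs {w : ℝ → ℝ} (hw : Bump w) : HasCompactSupport w :=
  HasCompactSupport.intro (isCompact_Icc (a := (0 : ℝ)) (b := 1)) fun t ht => by
    by_contra h
    exact ht ⟨(hw.supp t h).1.le, (hw.supp t h).2.le⟩

theorem poi_cont_ee : Continuous ee := by
  unfold ee
  fun_prop

theorem poi_int {w : ℝ → ℝ} (hw : Bump w) {g : ℝ → ℝ} (hg : Continuous g) :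
    Integrable fun t => (w t : ℂ) * ee (g t) := by
  have h1 : Continuous fun t => (w t : ℂ) :=
    Complex.continuous_ofReal.comp hw.smooth.continuous
  have h2 : HasCompactSupport fun t => (w t : ℂ) :=
    (poi_hcs hw).comp_left (g := fun y : ℝ => (y : ℂ)) Complex.ofReal_zero
  exact (h1.mul (poi_cont_ee.comp hg)).integrable_of_hasCompactSupport h2.mul_right

theorem poi_scale (w : ℝ → ℝ) {a : ℝ} (ha : 0 < a) (ξ : ℝ) :
    FourierTransform.fourier (fun u : ℝ => (w (u * a) : ℂ)) ξ =
      ((a⁻¹ : ℝ) : ℂ) * ∫ t, (w t : ℂ) * ee (-(ξ / a * t)) := by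
  have h1 := Measure.integral_comp_mul_right (fun t => (w t : ℂ) * ee (-(ξ / a * t))) a
  rw [abs_of_pos (inv_pos.2 ha), Complex.real_smul] at h1
  rw [Real.fourier_real_eq_integral_exp_smul, ← h1]
  refine integral_congr_ae (Filter.Eventually.of_forall fun v => ?_)
  simp only [smul_eq_mul, ee]
  rw [mul_comm, mul_comm Complex.I]
  congr 4
  field_simp

theorem poi_summable {w : ℝ → ℝ} (hw : Bump w) {a : ℝ} (ha : 0 < a) :
    Summable fun n : ℤ => ∫ t, (w t : ℂ) * ee (-((n : ℝ) / a * t)) := by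
  obtain ⟨C, -, hC⟩ := hw.decay 2
  have hs : Summable fun n : ℤ => 1 / (n : ℝ) ^ 2 := Real.summable_one_div_int_pow.2 one_lt_two
  refine (hs.mul_left (C * a ^ 2)).of_norm_bounded_eventually ?_
  filter_upwards [Filter.eventually_cofinite_ne 0] with n hn
  have h1 : (n : ℝ) ≠ 0 := by exact_mod_cast hn
  have h2 := hC (n / a)
  rw [sq_abs, div_pow, div_mul_eq_mul_div, div_le_iff₀ (by positivity)] at h2
  rw [mul_one_div, le_div_iff₀ (by positivity), mul_comm]
  exact h2

theorem poi_left {w : ℝ → ℝ} (hw : Bump w) {x : ℝ} (hx : 1 ≤ x) {d : ℕ} (hd : 0 < d) :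
    ∑' k : ℤ, (w ((-x / d + k) * (d / √x)) : ℂ) = (NN w x d : ℂ) := by
  classical
  have hs : 0 < √x := Real.sqrt_pos.2 (by linarith)
  have hd' : (0 : ℝ) < d := by exact_mod_cast hd
  have e1 : ∀ k : ℝ, (-x / d + k) * (d / √x) = (k * d - x) / √x := fun k => by
    field_simp
    ring
  simp only [e1]
  rw [tsum_eq_sum (s := ((II x).filter fun n => d ∣ n).image fun n : ℕ => ((n / d : ℕ) : ℤ)),
    sum_image, NN, Complex.ofReal_sum]
  · refine sum_congr rfl fun n hn => ?_
    obtain ⟨m, rfl⟩ := (mem_filter.1 hn).2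
    rw [Nat.mul_div_cancel_left _ hd]
    push_cast
    rw [mul_comm]
  · intro n hn m hm h
    exact (Nat.div_left_inj (mem_filter.1 hn).2 (mem_filter.1 hm).2).1 (Int.natCast_inj.1 h)
  · intro k hk
    by_contra h
    obtain ⟨h1, h2⟩ := hw.supp _ (Complex.ofReal_ne_zero.1 h)
    rw [div_pos_iff_of_pos_right hs] at h1
    rw [div_lt_one hs] at h2
    have h3 : (0 : ℝ) < k := (mul_pos_iff_of_pos_right hd').1 (by linarith : (0 : ℝ) < k * d)
    obtain ⟨m, rfl⟩ := Int.eq_ofNat_of_zero_le (by exact_mod_cast h3.le : 0 ≤ k)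
    rw [Int.cast_natCast] at h1 h2
    refine hk (mem_image.2 ⟨m * d, mem_filter.2 ⟨mem_Ioc.2 ⟨?_, ?_⟩, dvd_mul_left _ _⟩, ?_⟩)
    · rw [Nat.floor_lt (by linarith)]
      push_cast
      linarith
    · refine Nat.le_floor ?_
      push_cast
      linarith
    · rw [Nat.mul_div_cancel _ hd]

theorem poi_full {w : ℝ → ℝ} (hw : Bump w) {x : ℝ} (hx : 1 ≤ x) {d : ℕ} (hd : 0 < d) :
    HasSum (fun n : ℤ => ((√x / d : ℝ) : ℂ) *
      ∫ t, (w t : ℂ) * ee (-((n : ℝ) * (x + t * √x) / d))) (NN w x d : ℂ) := by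
  have hs : 0 < √x := Real.sqrt_pos.2 (by linarith)
  have hd' : (0 : ℝ) < d := by exact_mod_cast hd
  have ha : 0 < d / √x := div_pos hd' hs
  have sm : Summable fun n : ℤ =>
      FourierTransform.fourier (fun u : ℝ => (w (u * (d / √x)) : ℂ)) (n : ℝ) := by
    simp only [poi_scale w ha]
    exact (poi_summable hw ha).mul_left _
  have hcs : HasCompactSupport fun u : ℝ => (w (u * (d / √x)) : ℂ) :=
    ((poi_hcs hw).comp_left (g := fun y : ℝ => (y : ℂ)) Complex.ofReal_zero).comp_homeomorph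
      (Homeomorph.mulRight₀ (d / √x) ha.ne')
  have po := Real.tsum_eq_tsum_fourier_of_rpow_decay_of_summable
    (f := fun u : ℝ => (w (u * (d / √x)) : ℂ))
    (Complex.continuous_ofReal.comp (hw.smooth.continuous.comp (by fun_prop))) one_lt_two
    ((Asymptotics.isBigO_zero _ _).congr' (by
      rw [← Filter.coclosedCompact_eq_cocompact]
      exact (hasCompactSupport_iff_eventuallyEq.1 hcs).symm) Filter.EventuallyEq.rfl) sm (-x / d)
  rw [poi_left hw hx hd] at po
  have e1 : ∀ n : ℤ, fourier n ((-x / d : ℝ) : UnitAddCircle) = ee (-(n * x / d)) := fun n => by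
    rw [fourier_coe_apply, ee]
    congr 1
    push_cast
    ring
  have sm2 : Summable fun n : ℤ =>
      FourierTransform.fourier (fun u : ℝ => (w (u * (d / √x)) : ℂ)) (n : ℝ) *
        fourier n ((-x / d : ℝ) : UnitAddCircle) := by
    refine sm.norm.of_norm_bounded fun n => ?_
    rw [norm_mul, e1, norm_ee, mul_one]
  rw [po]
  refine sm2.hasSum.congr_fun fun n => ?_
  rw [poi_scale w ha, e1, inv_div, mul_assoc, ← integral_mul_const]
  congr 1
  refine integral_congr_ae (Filter.Eventually.of_forall fun t => ?_)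
  simp only
  rw [mul_assoc, ← ee_add]
  congr 2
  field_simp
  ring

/-- Poisson summation (`Real.tsum_eq_tsum_fourier_of_rpow_decay_of_summable`, pattern in
`Lib/MP_03e5d0_nt/ZPoi`, `poisson_class`) for `f u = w (u * (d / √x))` at the point `- x / d`.
The left side is a finite sum: `w ((k d - x) / √x) ≠ 0` forces `x < k d < x + √x`.  The terms `h` and
`- h` are conjugate, the term `h = 0` is the main term. -/
theorem Bump.poisson {w : ℝ → ℝ} (hw : Bump w) {x : ℝ} (hx : 1 ≤ x) {d : ℕ} (hd : 0 < d) :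
    HasSum (fun h : ℕ => √x / d * ∫ t, w t * (2 * Real.cos (2 * Real.pi *
      (((h + 1 : ℕ) : ℝ) * (x + t * √x) / d)))) (rr w x d) := by
  have h1 := (hasSum_nat_add_iff' 1).2 (poi_full hw hx hd).nat_add_neg
  rw [← Complex.hasSum_ofReal]
  convert! h1 using 1
  · funext h
    have hc : ∀ c : ℝ, Continuous fun t : ℝ => -(c * (x + t * √x) / d) := fun c => by fun_prop
    rw [← mul_add, ← integral_add (poi_int hw (hc _)) (poi_int hw (hc _)), Complex.ofReal_mul,
      ← integral_complex_ofReal]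
    congr 1
    refine integral_congr_ae (Filter.Eventually.of_forall fun t => ?_)
    simp only
    rw [← mul_add, Complex.ofReal_mul, Int.cast_neg, Int.cast_natCast, neg_mul, neg_div, neg_neg,
      ← conj_ee, add_comm ((starRingEnd ℂ) _), Complex.add_conj, ee_re]
  · simp only [range_one, sum_singleton, Nat.cast_zero, neg_zero, Int.cast_zero, zero_mul, zero_div,
      ee_zero, mul_one, integral_complex_ofReal, rr]
    push_cast
    ring

end Pool.Agent.Lib.MP_7d48f8_nt
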