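import Pool.Agent.Lib.MP_7d48f8_nt.B.Poi

/-! Truncation of the Fourier series. -/

noncomputable section

namespace Pool.Agent.Lib.MP_7d48f8_nt

open Finset MeasureTheory

theorem tru_cos {w : ℝ → ℝ} (hw : Bump w) (a b : ℝ) :
    |∫ t, w t * (2 * Real.cos (2 * Real.pi * (a + b * t)))| ≤
      2 * ‖∫ t, (w t : ℂ) * ee (-(-b * t))‖ := by
  have hs : HasCompactSupport w := HasCompactSupport.intro (isCompact_Icc (a := (0 : ℝ)) (b := 1))
    fun t ht => by
      by_contra h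
      exact ht ⟨(hw.supp t h).1.le, (hw.supp t h).2.le⟩
  have hc := hw.smooth.continuous
  have hi : Integrable fun t => ee a * ((w t : ℂ) * ee (-(-b * t))) := by
    refine Integrable.const_mul (Continuous.integrable_of_hasCompactSupport ?_ ?_) _
    · unfold ee
      fun_prop
    · exact (hs.comp_left (g := fun r : ℝ => (r : ℂ)) Complex.ofReal_zero).mul_right
  have h1 : ∀ t, w t * (2 * Real.cos (2 * Real.pi * (a + b * t))) =
      2 * RCLike.re (ee a * ((w t : ℂ) * ee (-(-b * t)))) := fun t => by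
    rw [mul_left_comm (ee a), ← ee_add, RCLike.re_to_complex, Complex.re_ofReal_mul, ee_re,
      neg_mul b, neg_neg]
    ring
  simp only [h1]
  rw [integral_const_mul, integral_re hi, integral_const_mul, abs_mul, abs_two]
  refine mul_le_mul_of_nonneg_left ((RCLike.abs_re_le_norm _).trans ?_) zero_le_two
  rw [norm_mul, norm_ee, one_mul]

theorem tru_Icc (g : ℕ → ℝ) (H : ℕ) : ∑ h ∈ Icc 1 H, g h = ∑ h ∈ range H, g (h + 1) := by
  induction H with
  | zero => simp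
  | succ H ih => rw [sum_Icc_succ_top (by omega), sum_range_succ, ih]

/-- Truncation: the term `h` is at most `(√x / d) * 2 C * (d / (h √x)) ^ (k + 2)`, and
`∑ h > H, h ^ (-(k + 2)) ≤ 2 (H + 1) ^ (-k)`. -/
theorem Bump.trunc {w : ℝ → ℝ} (hw : Bump w) (k : ℕ) : ∃ C : ℝ, 0 ≤ C ∧ ∀ x : ℝ, 1 ≤ x →
    ∀ d : ℕ, 0 < d → ∀ H : ℕ,
      |rr w x d - √x / d * ∑ h ∈ Icc 1 H, ∫ t, w t * (2 * Real.cos (2 * Real.pi *
        ((h : ℝ) * (x + t * √x) / d)))| ≤ C * (d / √x) * (d / (√x * (H + 1))) ^ k := by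
  obtain ⟨C, hC, hdec⟩ := hw.decay (k + 2)
  have hS : Summable fun h : ℕ => 1 / ((h + 1 : ℕ) : ℝ) ^ 2 :=
    (summable_nat_add_iff (f := fun h : ℕ => 1 / (h : ℝ) ^ 2) 1).2
      (Real.summable_one_div_nat_pow.2 one_lt_two)
  have hS0 : 0 ≤ ∑' h : ℕ, 1 / ((h + 1 : ℕ) : ℝ) ^ 2 := tsum_nonneg fun h => by positivity
  refine ⟨2 * C * ∑' h : ℕ, 1 / ((h + 1 : ℕ) : ℝ) ^ 2, by positivity, fun x hx d hd H => ?_⟩
  have hx0 : 0 < √x := Real.sqrt_pos.2 (by linarith)
  have hd0 : (0 : ℝ) < d := by exact_mod_cast hd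
  have h1 := (hasSum_nat_add_iff' H).2 (hw.poisson hx hd)
  have h2 := hS.hasSum.mul_left (2 * C * (d / √x) * (d / (√x * (H + 1))) ^ k)
  rw [tru_Icc, mul_sum]
  refine (h1.norm_le_of_bounded h2 fun h => ?_).trans (le_of_eq (by ring))
  generalize hm : ((h + H + 1 : ℕ) : ℝ) = m
  have hm1 : (H : ℝ) + 1 ≤ m := by
    rw [← hm]
    push_cast
    linarith [Nat.cast_nonneg (α := ℝ) h]
  have hm2 : ((h + 1 : ℕ) : ℝ) ≤ m := by
    rw [← hm]
    exact_mod_cast by omega
  have hm0 : 0 < m := lt_of_lt_of_le (by positivity) hm1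
  have h3 : ∀ t, m * (x + t * √x) / d = m * x / d + m * √x / d * t := fun t => by ring
  simp only [h3]
  have h4 := tru_cos hw (m * x / d) (m * √x / d)
  have h5 := hdec (-(m * √x / d))
  rw [abs_neg, abs_of_pos (by positivity), ← le_div_iff₀' (by positivity)] at h5
  rw [Real.norm_eq_abs, abs_mul, abs_of_pos (div_pos hx0 hd0)]
  calc _ ≤ √x / d * (2 * (C / (m * √x / d) ^ (k + 2))) :=
        mul_le_mul_of_nonneg_left (h4.trans (by linarith)) (by positivity)
    _ = 2 * C * (d / √x) * (d / (√x * m)) ^ k * (1 / m ^ 2) := by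
        rw [div_pow, div_pow, mul_pow, mul_pow]
        field_simp
        ring
    _ ≤ _ := by gcongr

end Pool.Agent.Lib.MP_7d48f8_nt
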